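import Mathlib
import Pool.Agent.Run7.h268.Freq

set_option autoImplicit false

open Finset Filter
open scoped Pointwise

namespace Pool.Agent.Results.MP_68c422_nt.BasisConstant

/-- The eighteen residues modulo 130 whose sums of two different entries cover everything. -/
theorem cover : ∀ x : ZMod 130, ∃ i j : Fin 18, i < j ∧
    (![10, 29, 35, 36, 37, 43, 62, 73, 83, 85, 88, 97, 101, 105, 114, 117, 119, 129] :
      Fin 18 → ZMod 130) i +
    (![10, 29, 35, 36, 37, 43, 62, 73, 83, 85, 88, 97, 101, 105, 114, 117, 119, 129] :
      Fin 18 → ZMod 130) j = x := by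
  decide +kernel

/-- For every `ε > 0` there are infinitely many `q` such that `ZMod q` has an additive basis `A`
of order two with `|A| / √q < 18 / √130 + ε` (here `18 / √130 = 1.5787...`). -/
theorem result : ∀ ε : ℝ, 0 < ε → ∃ᶠ q : ℕ+ in atTop, ∃ A : Finset (ZMod q),
    A + A = Finset.univ ∧ (A.card : ℝ) / Real.sqrt q < 18 / Real.sqrt 130 + ε := by
  intro ε hε
  have := Run7.h268.frequently_of_tuple (n := 130) (M := 18) (by norm_num) _ cover ε hε
  simpa using this

end Pool.Agent.Results.MP_68c422_nt.BasisConstant
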