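import Mathlib
import Pool.Agent.Run7.h268.Virtual

set_option autoImplicit false

open Finset Filter
open scoped Pointwise

namespace Pool.Agent.Results.MP_68c422_nt.FiniteTimesCyclic

/-- For every `ε > 0` there is an `m` such that for infinitely many `q` some subset `A` of
`G = (ZMod 4) ^ m × ZMod 2 × ZMod q` satisfies `A + A = G` and `| |A| / √|G| - √2 | < ε`. -/
theorem result : ∀ ε : ℝ, 0 < ε → ∃ m : ℕ, ∃ᶠ q : ℕ+ in atTop,
    ∃ A : Finset (((Fin m → ZMod 4) × ZMod 2) × ZMod q), A + A = Finset.univ ∧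
      |(A.card : ℝ) / Real.sqrt (2 * 4 ^ m * q) - Real.sqrt 2| < ε :=
  fun ε hε => Run7.h268.virtual_near_perfect ε hε

end Pool.Agent.Results.MP_68c422_nt.FiniteTimesCyclic
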